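import Pool.Agent.helper88.GR.Spec

set_option autoImplicit false

open Complex Metric Set Filter Topology MeasureTheory
open MPS (om)
open PPS (pre TT fd)
open XPS (Df er dens tau)
open Pool.Agent.helper16.Multibrot

noncomputable section

namespace GR

theorem MIS_succ (n : ℕ) (c : ℂ) (j : ℕ) : Z n c (j + 1) = Z n c j ^ n + c := by
  simp only [Z, Function.iterate_succ_apply']

theorem MIS_add (n : ℕ) (c : ℂ) (i j : ℕ) :
    Z n c (i + j) = (fun w : ℂ => w ^ n + c)^[i] (Z n c j) := by
  simp only [Z, Function.iterate_add_apply]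

/-- the polynomial `Z j` of the parameter. -/
def MIS_P (n : ℕ) : ℕ → Polynomial ℂ
  | 0 => 0
  | j + 1 => MIS_P n j ^ n + Polynomial.X

theorem MIS_P_eval (n : ℕ) (x : ℂ) (j : ℕ) : (MIS_P n j).eval x = Z n x j := by
  induction j with
  | zero => simp [MIS_P, Z]
  | succ j ih => rw [MIS_succ, MIS_P, Polynomial.eval_add, Polynomial.eval_pow, Polynomial.eval_X, ih]

theorem MIS_diff (n j : ℕ) : Differentiable ℂ (fun x => Z n x j) := by
  have h : (fun x => Z n x j) = fun x => (MIS_P n j).eval x := by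
    funext x
    rw [MIS_P_eval]
  rw [h]
  exact (MIS_P n j).differentiable

/-- The orbit for the parameter `1`. -/
theorem MIS_one (n : ℕ) (hn : 1 ≤ n) : ∃ N : ℕ → ℕ, StrictMono N ∧ ∀ j, Z n 1 j = N j := by
  let N : ℕ → ℕ := fun j => (fun w : ℕ => w ^ n + 1)^[j] 0
  have hs : ∀ j, N (j + 1) = N j ^ n + 1 := fun j => by
    simp only [N, Function.iterate_succ_apply']
  refine ⟨N, strictMono_nat_of_lt_succ fun j => ?_, fun j => ?_⟩
  · rw [hs]
    exact Nat.lt_succ_of_le (Nat.le_self_pow (by omega) _)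
  · induction j with
    | zero => simp [Z, N]
    | succ j ih =>
      rw [MIS_succ, ih, hs]
      push_cast
      rfl

theorem MIS_super (n : ℕ) (c : ℂ) (hn : 2 ≤ n) (j : ℕ) (hj : 1 ≤ j) (h : Z n c j = 0) :
    c ∈ hyperbolic n := by
  refine ⟨0, j, hj, h, ?_⟩
  obtain ⟨m, rfl⟩ : ∃ m, j = m + 1 := ⟨j - 1, by omega⟩
  have hd : Differentiable ℂ (fun w : ℂ => w ^ n + c) := by fun_prop
  have h0 : deriv (fun w : ℂ => w ^ n + c) 0 = 0 := by
    have h1 : HasDerivAt (fun w : ℂ => w ^ n + c) ((n : ℂ) * 0 ^ (n - 1)) 0 :=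
      (hasDerivAt_pow n 0).add_const c
    rw [h1.deriv, zero_pow (by omega), mul_zero]
  rw [Function.iterate_succ, deriv_comp _ (hd.iterate m).differentiableAt hd.differentiableAt, h0,
    mul_zero, norm_zero]
  exact one_pos

/-- the difference quotient of the iterates. -/
def MIS_Q (n : ℕ) : ℕ → ℂ → ℂ → ℂ → ℂ
  | 0, _, _, _ => 1
  | k + 1, x, a, b => MIS_Q n k x a b * ∑ l ∈ Finset.range n,
      ((fun w : ℂ => w ^ n + x)^[k] a) ^ l * ((fun w : ℂ => w ^ n + x)^[k] b) ^ (n - 1 - l)

theorem MIS_Q_eq (n : ℕ) (x a b : ℂ) (k : ℕ) :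
    (fun w : ℂ => w ^ n + x)^[k] a - (fun w : ℂ => w ^ n + x)^[k] b = (a - b) * MIS_Q n k x a b := by
  induction k with
  | zero => simp [MIS_Q]
  | succ k ih =>
    rw [Function.iterate_succ_apply', Function.iterate_succ_apply', MIS_Q, ← mul_assoc, ← ih]
    have h := geom_sum₂_mul ((fun w : ℂ => w ^ n + x)^[k] a) ((fun w : ℂ => w ^ n + x)^[k] b) n
    rw [mul_comm, h]
    ring

theorem MIS_Q_diag (n : ℕ) (x a : ℂ) (k : ℕ) :
    MIS_Q n k x a a = deriv ((fun w : ℂ => w ^ n + x)^[k]) a := by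
  induction k with
  | zero => simp [MIS_Q]
  | succ k ih =>
    have hd : Differentiable ℂ (fun w : ℂ => w ^ n + x) := by fun_prop
    rw [Function.iterate_succ', deriv_comp _ hd.differentiableAt (hd.iterate k).differentiableAt,
      MIS_Q, ih]
    have h1 : HasDerivAt (fun w : ℂ => w ^ n + x)
        ((n : ℂ) * ((fun w : ℂ => w ^ n + x)^[k] a) ^ (n - 1)) ((fun w : ℂ => w ^ n + x)^[k] a) :=
      (hasDerivAt_pow n _).add_const x
    rw [h1.deriv, mul_comm]
    congr 1
    rw [Finset.sum_congr rfl (g := fun _ => ((fun w : ℂ => w ^ n + x)^[k] a) ^ (n - 1)),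
      Finset.sum_const, Finset.card_range, nsmul_eq_mul]
    intro l hl
    rw [← pow_add]
    congr 1
    have := Finset.mem_range.1 hl
    omega

theorem MIS_iter_diff (n k : ℕ) (a : ℂ → ℂ) (ha : Differentiable ℂ a) :
    Differentiable ℂ (fun x => (fun w : ℂ => w ^ n + x)^[k] (a x)) := by
  induction k with
  | zero => simpa using ha
  | succ k ih =>
    simp only [Function.iterate_succ_apply']
    exact (ih.pow n).add differentiable_id

theorem MIS_Q_diff (n k : ℕ) (a b : ℂ → ℂ) (ha : Differentiable ℂ a) (hb : Differentiable ℂ b) :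
    Differentiable ℂ (fun x => MIS_Q n k x (a x) (b x)) := by
  induction k with
  | zero =>
    simp only [MIS_Q]
    exact differentiable_const _
  | succ k ih =>
    simp only [MIS_Q]
    refine ih.mul ?_
    refine Differentiable.fun_sum fun l _ => ?_
    exact ((MIS_iter_diff n k a ha).pow l).mul ((MIS_iter_diff n k b hb).pow _)

/-- The bound for the orbit near a parameter with a critical relation. -/
theorem MIS_bound (hGRO : GRO_stmt) (n : ℕ) (c : ℂ) (r : ℝ) (hn : 2 ≤ n)
    (hU : Disjoint (ball c r) (hyperbolic n)) (c' : ℂ) (hc' : c' ∈ ball c r) (i j : ℕ) (hij : i < j)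
    (hi : 1 ≤ i) (h : Z n c' i = Z n c' j) :
    ∃ s M : ℝ, 0 < s ∧ 0 < M ∧ ∀ m, 1 ≤ m → ∀ z ∈ closedBall c' s, ‖Z n z m‖ ≤ M := by
  obtain ⟨C, hC, hG⟩ := hGRO
  set r' : ℝ := r - dist c' c with hr'
  have hr'pos : 0 < r' := by
    rw [mem_ball] at hc'
    linarith
  have hsub : ball c' r' ⊆ ball c r := ball_subset_ball' (by linarith)
  have hne : ∀ x ∈ ball c' r', ∀ m, 1 ≤ m → Z n x m ≠ 0 := by
    intro x hx m hm h0
    exact Set.disjoint_left.1 hU (hsub hx) (MIS_super n x hn m hm h0)
  have hx0 : ∀ x ∈ ball c' r', x ≠ 0 := by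
    intro x hx h0
    apply hne x hx 1 le_rfl
    rw [h0]
    simp [Z, show n ≠ 0 by omega]
  have hc'mem : c' ∈ ball c' r' := mem_ball_self hr'pos
  -- finitely many values
  have hfin : ∀ m, 1 ≤ m → ∃ m' ∈ Finset.Icc 1 j, Z n c' m = Z n c' m' := by
    intro m
    induction m using Nat.strong_induction_on with
    | _ m ih =>
      intro hm
      by_cases hmj : m < j
      · exact ⟨m, Finset.mem_Icc.2 ⟨hm, hmj.le⟩, rfl⟩
      · have e1 : Z n c' m = Z n c' ((m - j) + i) := by
          rw [MIS_add n c' (m - j) i, h, ← MIS_add, Nat.sub_add_cancel (by omega)]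
        obtain ⟨m', hm', e2⟩ := ih ((m - j) + i) (by omega) (by omega)
        exact ⟨m', hm', e1.trans e2⟩
  set F : ℕ → ℂ → ℂ := fun m x => -(Z n x m ^ n) / x with hF
  have hFd : ∀ m, DifferentiableOn ℂ (F m) (ball c' r') := by
    intro m
    refine DifferentiableOn.div ?_ differentiableOn_id hx0
    exact ((MIS_diff n m).pow n).neg.differentiableOn
  have hF01 : ∀ m, 1 ≤ m → ∀ z ∈ ball c' r', F m z ≠ 0 ∧ F m z ≠ 1 := by
    intro m hm z hz
    have hz0 := hx0 z hz
    refine ⟨?_, ?_⟩
    · simp only [hF]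
      exact div_ne_zero (neg_ne_zero.2 (pow_ne_zero _ (hne z hz m hm))) hz0
    · intro h1
      simp only [hF] at h1
      rw [div_eq_one_iff_eq hz0] at h1
      apply hne z hz (m + 1) (by omega)
      rw [MIS_succ]
      linear_combination -h1
  set L : ℝ := ∑ m ∈ Finset.Icc 1 j, (1 + |Real.log ‖F m c'‖|) with hL
  have hLm : ∀ m, 1 ≤ m → 1 + |Real.log ‖F m c'‖| ≤ L := by
    intro m hm
    obtain ⟨m', hm', e⟩ := hfin m hm
    have e1 : F m c' = F m' c' := by simp only [hF, e]
    rw [e1]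
    exact Finset.single_le_sum (f := fun m => 1 + |Real.log ‖F m c'‖|)
      (fun m _ => by positivity) hm'
  refine ⟨r' / 2, (‖c'‖ + r' / 2) * Real.exp (C * L) + (‖c'‖ + r' / 2), by positivity, by positivity,
    ?_⟩
  have hzB : ∀ z ∈ closedBall c' (r' / 2), ‖z‖ ≤ ‖c'‖ + r' / 2 := by
    intro z hz
    rw [mem_closedBall, dist_eq_norm] at hz
    have := norm_add_le c' (z - c')
    rw [add_sub_cancel] at this
    linarith
  intro m hm z hz
  have hzb : z ∈ ball c' r' := closedBall_subset_ball (by linarith) hz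
  rcases Nat.lt_or_ge 1 m with hm1 | hm1
  · obtain ⟨m, rfl⟩ : ∃ m', m = m' + 1 := ⟨m - 1, by omega⟩
    have hm' : 1 ≤ m := by omega
    have h1 := hG (F m) c' r' hr'pos (hFd m) (hF01 m hm') z hz
    have h2 : Real.log ‖F m z‖ ≤ C * L := by
      have h3 := mul_le_mul_of_nonneg_left (hLm m hm') (by linarith : (0 : ℝ) ≤ C)
      have h4 := le_abs_self (Real.log ‖F m z‖)
      linarith
    have h3 : ‖F m z‖ ≤ Real.exp (C * L) := by
      rw [← Real.log_le_iff_le_exp (norm_pos_iff.2 (hF01 m hm' z hzb).1)]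
      exact h2
    have h4 : ‖Z n z m ^ n‖ ≤ (‖c'‖ + r' / 2) * Real.exp (C * L) := by
      have e1 : Z n z m ^ n = -(F m z * z) := by
        simp only [hF]
        rw [div_mul_cancel₀ _ (hx0 z hzb), neg_neg]
      rw [e1, norm_neg, norm_mul, mul_comm]
      exact mul_le_mul (hzB z hz) h3 (norm_nonneg _) (by positivity)
    rw [MIS_succ]
    exact (norm_add_le _ _).trans (add_le_add h4 (hzB z hz))
  · obtain rfl : m = 1 := by omega
    have e1 : Z n z 1 = z := by simp [Z, show n ≠ 0 by omega]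
    rw [e1]
    have h5 : 0 ≤ (‖c'‖ + r' / 2) * Real.exp (C * L) := by positivity
    have := hzB z hz
    linarith

theorem MIS (hGRO : GRO_stmt) (hZN : MPS.ZN_stmt) : MIS_stmt := by
  intro n c r hn hU c' hc' i j hij h
  rcases Nat.eq_zero_or_pos i with rfl | hi
  · have h0 : Z n c' j = 0 := by
      rw [← h]
      simp [Z]
    exact Set.disjoint_left.1 hU hc' (MIS_super n c' hn j (by omega) h0)
  obtain ⟨s, M, hs, hM, hbd⟩ := MIS_bound hGRO n c r hn hU c' hc' i j hij hi h
  obtain ⟨k, rfl⟩ : ∃ k, j = i + k := ⟨j - i, by omega⟩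
  have hk : 0 < k := by omega
  set z₀ : ℂ := Z n c' i with hz₀
  have hper : (fun w : ℂ => w ^ n + c')^[k] z₀ = z₀ := by
    rw [hz₀, ← MIS_add, add_comm k i]
    exact h.symm
  have hρ : 1 < ‖MPS.mlt n k c' z₀‖ := hZN n c r hn hU c' hc' k z₀ hk hper
  set ρ : ℂ := MPS.mlt n k c' z₀ with hρdef
  have hρQ : MIS_Q n k c' z₀ z₀ = ρ := MIS_Q_diag n c' z₀ k
  -- the orbit at c' along the progression
  have horb : ∀ m : ℕ, Z n c' (i + m * k) = z₀ := by
    intro m
    induction m with
    | zero => simp [hz₀]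
    | succ m ih =>
      have e : i + (m + 1) * k = k + (i + m * k) := by ring
      rw [e, MIS_add, ih, hper]
  -- the first difference
  set P : Polynomial ℂ := MIS_P n (i + k) - MIS_P n i with hP
  have hP0 : P ≠ 0 := by
    intro h0
    obtain ⟨N, hN, hN1⟩ := MIS_one n (by omega)
    have h1 : P.eval 1 = 0 := by rw [h0, Polynomial.eval_zero]
    rw [hP, Polynomial.eval_sub, MIS_P_eval, MIS_P_eval, hN1, hN1, sub_eq_zero] at h1
    have h2 : N (i + k) = N i := by exact_mod_cast h1
    have h3 := hN (show i < i + k by omega)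
    omega
  obtain ⟨φ, hφ1, hφ2⟩ := Polynomial.exists_eq_pow_rootMultiplicity_mul_and_not_dvd P hP0 c'
  set d : ℕ := P.rootMultiplicity c' with hd
  have hφ0 : φ.eval c' ≠ 0 := by
    intro h0
    exact hφ2 (Polynomial.dvd_iff_isRoot.2 h0)
  -- the functions g
  set q : ℕ → ℂ → ℂ := fun l x => MIS_Q n k x (Z n x (i + (l + 1) * k)) (Z n x (i + l * k)) with hq
  set g : ℕ → ℂ → ℂ := fun m x => φ.eval x * ∏ l ∈ Finset.range m, q l x with hg
  have hqd : ∀ l, Differentiable ℂ (q l) := fun l =>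
    MIS_Q_diff n k _ _ (MIS_diff n _) (MIS_diff n _)
  have hgd : ∀ m, Differentiable ℂ (g m) := by
    intro m
    induction m with
    | zero =>
      simp only [hg, Finset.prod_range_zero, mul_one]
      exact φ.differentiable
    | succ m ih =>
      have e : g (m + 1) = fun x => g m x * q m x := by
        funext x
        simp only [hg, Finset.prod_range_succ, mul_assoc]
      rw [e]
      exact ih.mul (hqd m)
  have hu : ∀ m x, Z n x (i + (m + 1) * k) - Z n x (i + m * k) = (x - c') ^ d * g m x := by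
    intro m x
    induction m with
    | zero =>
      have h1 : P.eval x = (x - c') ^ d * φ.eval x := by
        conv_lhs => rw [hφ1]
        rw [Polynomial.eval_mul, Polynomial.eval_pow, Polynomial.eval_sub, Polynomial.eval_X,
          Polynomial.eval_C]
      rw [hP, Polynomial.eval_sub, MIS_P_eval, MIS_P_eval] at h1
      simp only [hg, Finset.prod_range_zero, mul_one, zero_mul, add_zero, zero_add, one_mul]
      exact h1
    | succ m ih =>
      have e1 : i + (m + 1 + 1) * k = k + (i + (m + 1) * k) := by ring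
      have e2 : i + (m + 1) * k = k + (i + m * k) := by ring
      have e3 : Z n x (i + (m + 1 + 1) * k) = (fun w : ℂ => w ^ n + x)^[k] (Z n x (i + (m + 1) * k)) := by
        rw [e1, MIS_add]
      have e4 : Z n x (i + (m + 1) * k) = (fun w : ℂ => w ^ n + x)^[k] (Z n x (i + m * k)) := by
        rw [e2, MIS_add]
      have e5 : Z n x (i + (m + 1 + 1) * k) - Z n x (i + (m + 1) * k) =
          (Z n x (i + (m + 1) * k) - Z n x (i + m * k)) * q m x := by
        rw [e3]
        conv_lhs => rw [e4]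
        rw [← e4]
        have := MIS_Q_eq n x (Z n x (i + (m + 1) * k)) (Z n x (i + m * k)) k
        rw [← e4] at this
        exact this
      rw [e5, ih]
      simp only [hg, Finset.prod_range_succ]
      ring
  have hgc : ∀ m, g m c' = φ.eval c' * ρ ^ m := by
    intro m
    simp only [hg]
    congr 1
    rw [Finset.prod_congr rfl (g := fun _ => ρ), Finset.prod_const, Finset.card_range]
    intro l _
    simp only [hq]
    rw [horb, horb, hρQ]
  -- the maximum principle
  have hmax : ∀ m, ‖g m c'‖ ≤ 2 * M / s ^ d := by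
    intro m
    refine Complex.norm_le_of_forall_mem_frontier_norm_le (U := ball c' s) isBounded_ball
      (hgd m).diffContOnCl ?_ (subset_closure (mem_ball_self hs))
    intro x hx
    rw [frontier_ball c' hs.ne', mem_sphere_iff_norm] at hx
    have hxb : x ∈ closedBall c' s := by
      rw [mem_closedBall, dist_eq_norm, hx]
    have h1 := hu m x
    have h2 : ‖(x - c') ^ d * g m x‖ ≤ 2 * M := by
      rw [← h1]
      refine (norm_sub_le _ _).trans ?_
      have h3 := hbd (i + (m + 1) * k) (by omega) x hxb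
      have h4 := hbd (i + m * k) (by omega) x hxb
      linarith
    rw [norm_mul, norm_pow, hx] at h2
    rw [le_div_iff₀ (by positivity), mul_comm]
    exact h2
  have hlim : Tendsto (fun m : ℕ => ‖φ.eval c'‖ * ‖ρ‖ ^ m) atTop atTop :=
    (tendsto_pow_atTop_atTop_of_one_lt hρ).const_mul_atTop (norm_pos_iff.2 hφ0)
  obtain ⟨m, hm⟩ := (hlim.eventually_gt_atTop (2 * M / s ^ d)).exists
  have h1 := hmax m
  rw [hgc, norm_mul, norm_pow] at h1
  linarith

end GR
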